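import Pool.Agent.Helper19.CP.Spec

/-! # CP, part ASM -/

set_option autoImplicit false

namespace Pool.Agent.Helper94.CP.ASM

open MvPolynomial Pool.Agent.Helper19.CP

/-- all coefficients of a system -/
def coefs {n m : ℕ} (r : Fin m → Tuple n) : Set ℂ :=
  ⋃ j : Fin m, ⋃ i : Fin (n + 2), insert 0 ((fun α => (r j i).coeff α) '' ((r j i).support : Set _))

lemma coefs_finite {n m : ℕ} (r : Fin m → Tuple n) : (coefs r).Finite :=
  Set.finite_iUnion fun _ => Set.finite_iUnion fun _ =>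
    Set.Finite.insert 0 ((Finset.finite_toSet _).image _)

lemma coeff_mem {n m : ℕ} (r : Fin m → Tuple n) (j : Fin m) (i : Fin (n + 2))
    (α : Fin (n + 1) →₀ ℕ) : (r j i).coeff α ∈ coefs r := by
  refine Set.mem_iUnion.2 ⟨j, Set.mem_iUnion.2 ⟨i, ?_⟩⟩
  by_cases h : α ∈ (r j i).support
  · exact Set.mem_insert_of_mem _ ⟨α, h, rfl⟩
  · rw [notMem_support_iff.1 h]
    exact Set.mem_insert _ _

theorem main (h1 : S_GAL) (h2 : S_PER) (h3 : S_FP) (h4 : S_REP) (h5 : S_DSC) (h6 : S_DEG) :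
    S_ASM := by
  intro p n D m K F Q r hp hpn hpm hF hQ hst hsys
  obtain ⟨L, hLf, hLg, hLS⟩ := h1 K (coefs r) (coefs_finite r) (by
    intro x hx
    obtain ⟨j, hx⟩ := Set.mem_iUnion.1 hx
    obtain ⟨i, hx⟩ := Set.mem_iUnion.1 hx
    rcases hx with rfl | ⟨α, -, rfl⟩
    · exact zero_mem _
    · exact (hQ (r j) (hsys.mem j)).2 i α)
  have hover : ∀ j i, Over L.toSubfield (r j i) := fun j i α => hLS _ (coeff_mem r j i α)
  obtain ⟨E, π, hE1, hE2, hE3, hπ1, hπ2⟩ := h2 n D m K F Q r L hQ hst hsys hLf hLg hover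
  haveI := hLf
  haveI : Finite (L ≃ₐ[K] L) := inferInstance
  obtain ⟨P, hP, hPi, j, hj⟩ := h3 p m (L ≃ₐ[K] L) π hp hπ1 hπ2 hpm
  have hKL : K ≤ L.toSubfield := fun x hx => L.algebraMap_mem ⟨x, hx⟩
  have hcop : Nat.Coprime (Nat.card P) (n + 1) := by
    haveI : Fact p.Prime := ⟨hp⟩
    obtain ⟨e, he⟩ := IsPGroup.iff_card.1 hP
    rw [he]
    exact Nat.Coprime.pow_left e ((Nat.Prime.coprime_iff_not_dvd hp).2 hpn)
  obtain ⟨G', hG1, hG2⟩ := h5 n D K F (r j) L E P hF (hQ _ (hsys.mem j)).1 hLf hLg (hover j) hE2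
    hcop (by
      intro σ hσ
      have h := hE3 σ j
      rw [hj σ hσ] at h
      refine h4 n D F K L.toSubfield (r j) (conj (E σ) (r j)) hKL (hQ _ (hsys.mem j)).1 (hover j)
        ?_ h
      intro i α
      have e : (conj (E σ) (r j) i).coeff α = E σ ((r j i).coeff α) := by
        unfold conj
        rw [coeff_map]
        rfl
      rw [e]
      have e2 := hE2 σ ⟨(r j i).coeff α, hover j i α⟩
      change E σ ((r j i).coeff α) = _ at e2
      rw [e2]
      exact (σ ⟨(r j i).coeff α, hover j i α⟩).2)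
  obtain ⟨K'', hK1, hK2, hK3⟩ := h6 K L hLf hLg P
  refine ⟨K'', G', hK1, by rw [hK2]; exact hPi, hG1, ?_⟩
  intro i α
  obtain ⟨x, hx, hfix⟩ := hG2 i α
  rw [← hx]
  exact hK3 x hfix

end Pool.Agent.Helper94.CP.ASM
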