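import Pool.Agent.Helper19.CP.Spec

/-! # CP, part ST2 -/

set_option autoImplicit false

namespace Pool.Agent.Helper94.CP.ST2

open MvPolynomial Pool.Agent.Helper19.CP

lemma conj_aeval {n : ℕ} (τ : ℂ ≃+* ℂ) (G : Tuple n) (H : MvPolynomial (Fin (n + 2)) ℂ) :
    map (τ : ℂ →+* ℂ) (aeval G H) = aeval (conj τ G) (map (τ : ℂ →+* ℂ) H) := by
  have key : (map (τ : ℂ →+* ℂ)).comp (aeval G : MvPolynomial (Fin (n + 2)) ℂ →ₐ[ℂ]
      MvPolynomial (Fin (n + 1)) ℂ).toRingHom =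
      ((aeval (conj τ G) : MvPolynomial (Fin (n + 2)) ℂ →ₐ[ℂ]
      MvPolynomial (Fin (n + 1)) ℂ).toRingHom).comp (map (τ : ℂ →+* ℂ)) := by
    refine MvPolynomial.ringHom_ext ?_ ?_
    · intro a
      simp [algebraMap_eq]
    · intro i
      simp [conj]
  exact congrArg (fun f => f H) key

lemma map_symm {m : ℕ} (τ : ℂ ≃+* ℂ) (H : MvPolynomial (Fin m) ℂ) :
    map (τ : ℂ →+* ℂ) (map (τ.symm : ℂ →+* ℂ) H) = H := by
  ext α
  rw [coeff_map, coeff_map]
  exact τ.apply_symm_apply _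

lemma map_fix {m : ℕ} {K : Subfield ℂ} {F : MvPolynomial (Fin m) ℂ} (hF : Over K F) {τ : ℂ ≃+* ℂ}
    (hτ : Fixes K τ) : map (τ : ℂ →+* ℂ) F = F := by
  ext α
  rw [coeff_map]
  exact hτ _ (hF α)

lemma alg_map {K : Subfield ℂ} {τ : ℂ ≃+* ℂ} (hτ : Fixes K τ) {x : ℂ} (hx : x ∈ Alg K) :
    τ x ∈ Alg K := by
  have h1 : IsAlgebraic K x := mem_algebraicClosure_iff.1 hx
  obtain ⟨p, hp0, hp⟩ := h1
  refine mem_algebraicClosure_iff.2 ⟨p, hp0, ?_⟩
  have h2 : (τ : ℂ →+* ℂ) (Polynomial.aeval x p) = 0 := by rw [hp, map_zero]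
  rw [Polynomial.aeval_def, Polynomial.hom_eval₂] at h2
  have h3 : (τ : ℂ →+* ℂ).comp (algebraMap K ℂ) = algebraMap K ℂ := by
    ext y
    exact hτ _ y.2
  rw [h3] at h2
  rw [Polynomial.aeval_def]
  exact h2

/-- the extension of `map τ` to rational functions -/
noncomputable def ext (m : ℕ) (τ : ℂ ≃+* ℂ) : Rat m →+* Rat m :=
  IsLocalization.map (Rat m) (map (τ : ℂ →+* ℂ) : MvPolynomial (Fin m) ℂ →+* MvPolynomial (Fin m) ℂ)
    (M := nonZeroDivisors (MvPolynomial (Fin m) ℂ)) (T := nonZeroDivisors (MvPolynomial (Fin m) ℂ))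
    (nonZeroDivisors_le_comap_nonZeroDivisors_of_injective _ (map_injective _ τ.injective))

lemma ext_algebraMap (m : ℕ) (τ : ℂ ≃+* ℂ) (p : MvPolynomial (Fin m) ℂ) :
    ext m τ (algebraMap _ (Rat m) p) = algebraMap _ (Rat m) (map (τ : ℂ →+* ℂ) p) := by
  unfold ext
  exact IsLocalization.map_eq _ p

lemma ext_ratios {n : ℕ} (τ : ℂ ≃+* ℂ) (G : Tuple n) {z : Rat (n + 1)} (hz : z ∈ ratios G) :
    ext (n + 1) τ z ∈ ratios (conj τ G) := by
  unfold ratios at hz
  induction hz using IntermediateField.adjoin_induction with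
  | mem x hx =>
    obtain ⟨i, j, rfl⟩ := hx
    rw [map_div₀, ext_algebraMap, ext_algebraMap]
    exact IntermediateField.subset_adjoin _ _ ⟨i, j, rfl⟩
  | algebraMap c =>
    have e : algebraMap ℂ (Rat (n + 1)) c = algebraMap (MvPolynomial (Fin (n + 1)) ℂ) (Rat (n + 1)) (C c) := by
      rw [IsScalarTower.algebraMap_apply ℂ (MvPolynomial (Fin (n + 1)) ℂ) (Rat (n + 1))]
      rfl
    rw [e, ext_algebraMap, map_C]
    have e2 : algebraMap (MvPolynomial (Fin (n + 1)) ℂ) (Rat (n + 1)) (C ((τ : ℂ →+* ℂ) c)) =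
        algebraMap ℂ (Rat (n + 1)) ((τ : ℂ →+* ℂ) c) := by
      rw [IsScalarTower.algebraMap_apply ℂ (MvPolynomial (Fin (n + 1)) ℂ) (Rat (n + 1))]
      rfl
    rw [e2]
    exact IntermediateField.algebraMap_mem _ _
  | add x y _ _ hx hy => rw [map_add]; exact add_mem hx hy
  | inv x _ hx => rw [map_inv₀]; exact inv_mem hx
  | mul x y _ _ hx hy => rw [map_mul]; exact mul_mem hx hy

theorem main : S_ST2 := by
  intro n D K F G hF hG τ hτ
  refine ⟨⟨?_, ?_, ?_, ?_⟩, ?_⟩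
  · intro i
    exact (hG.hom i).map _
  · have h := conj_aeval τ G F
    rw [hG.zero, map_zero, map_fix hF hτ] at h
    exact h.symm
  · intro e H hH h0
    have h1 : aeval G (map (τ.symm : ℂ →+* ℂ) H) = 0 := by
      apply map_injective (τ : ℂ →+* ℂ) τ.injective
      rw [conj_aeval, map_symm, h0, map_zero]
    have h2 := hG.dom e (map (τ.symm : ℂ →+* ℂ) H) (hH.map _) h1
    have h3 := map_dvd (map (τ : ℂ →+* ℂ)) h2
    rw [map_symm, map_fix hF hτ] at h3
    exact h3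
  · intro i j
    have h := ext_ratios τ G (hG.bir i j)
    rw [map_div₀, ext_algebraMap, ext_algebraMap, map_X, map_X] at h
    exact h
  · intro h i α
    have e : (conj τ G i).coeff α = τ ((G i).coeff α) := by
      unfold conj
      rw [coeff_map]
      rfl
    rw [e]
    exact alg_map hτ (h i α)

end Pool.Agent.Helper94.CP.ST2
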